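import Mathlib

/-! Partitions for the Riemann sums of the constant `π/√2`. -/

namespace Pool.Agent.H.MP_b3c6db_nt

open Finset

/-- `φ(r) = 1 - r + r log r` -/
noncomputable def fph (r : ℝ) : ℝ := 1 - r + r * Real.log r

/-- `z(r) = r / (2 φ(r))` -/
noncomputable def fz (r : ℝ) : ℝ := r / (2 * fph r)

/-- `W(r) = 8 φ(r)²` -/
noncomputable def fW (r : ℝ) : ℝ := 8 * fph r ^ 2

/-- `Φ(r) = 2 r² log r - r²`, `Φ' = 4 r log r`. -/
noncomputable def fPhi (r : ℝ) : ℝ := 2 * r ^ 2 * Real.log r - r ^ 2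

/-- `φ > 0` on `(0,1)`: `log r ≥ 1 - 1/r`, strict. -/
lemma fph_pos {r : ℝ} (h0 : 0 < r) (h1 : r < 1) : 0 < fph r := by
  have h2 : Real.log (1 / r) < 1 / r - 1 := by
    apply Real.log_lt_sub_one_of_pos (by positivity)
    intro h
    rw [div_eq_one_iff_eq h0.ne'] at h
    linarith
  rw [one_div, Real.log_inv] at h2
  have h3 : r * (-Real.log r) < r * (r⁻¹ - 1) := by
    apply mul_lt_mul_of_pos_left h2 h0
  have h4 : r * (r⁻¹ - 1) = 1 - r := by field_simp
  unfold fph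
  linarith

/-- `φ' = log r` -/
lemma hasDerivAt_fph {r : ℝ} (h0 : 0 < r) : HasDerivAt fph (Real.log r) r := by
  have h1 := Real.hasDerivAt_mul_log h0.ne'
  have h2 : HasDerivAt (fun x : ℝ => 1 - x) (-1) r := by
    simpa using (hasDerivAt_id r).const_sub 1
  have h3 := h2.add h1
  have h4 : -1 + (Real.log r + 1) = Real.log r := by ring
  rw [h4] at h3
  exact h3

/-- `φ` is strictly decreasing on `(0,1)`. -/
lemma fph_anti {r s : ℝ} (h0 : 0 < r) (h : r < s) (h1 : s < 1) : fph s < fph r := by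
  have hd : ∀ x ∈ Set.Icc r s, HasDerivAt fph (Real.log x) x := fun x hx =>
    hasDerivAt_fph (h0.trans_le hx.1)
  have h2 : StrictAntiOn fph (Set.Icc r s) := by
    apply strictAntiOn_of_deriv_neg (convex_Icc r s)
    · exact fun x hx => (hd x hx).continuousAt.continuousWithinAt
    · intro x hx
      rw [interior_Icc] at hx
      rw [(hd x (Set.Ioo_subset_Icc_self hx)).deriv]
      exact Real.log_neg (h0.trans hx.1) (hx.2.trans h1)
  exact h2 (Set.left_mem_Icc.2 h.le) (Set.right_mem_Icc.2 h.le) h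

lemma fW_anti {r s : ℝ} (h0 : 0 < r) (h : r < s) (h1 : s < 1) : fW s < fW r := by
  have h2 := fph_anti h0 h h1
  have h3 := fph_pos (h0.trans h) h1
  unfold fW
  nlinarith

lemma fz_mono {r s : ℝ} (h0 : 0 < r) (h : r ≤ s) (h1 : s < 1) : fz r ≤ fz s := by
  have hs := fph_pos (h0.trans_le h) h1
  have hle : fph s ≤ fph r := by
    rcases h.eq_or_lt with rfl | h2
    · exact le_rfl
    · exact (fph_anti h0 h2 h1).le
  unfold fz
  apply div_le_div₀ (h0.trans_le h).le h (by linarith) (by linarith)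

lemma fph_lt_one {r : ℝ} (h0 : 0 < r) (h1 : r < 1) : fph r < 1 := by
  have h2 : r * Real.log r < 0 := mul_neg_of_pos_of_neg h0 (Real.log_neg h0 h1)
  unfold fph
  linarith

lemma Part_derivW {r : ℝ} (h0 : 0 < r) : HasDerivAt fW (16 * fph r * Real.log r) r := by
  have h1 := ((hasDerivAt_fph h0).pow 2).const_mul 8
  have h2 : 8 * ((2 : ℕ) * fph r ^ (2 - 1) * Real.log r) = 16 * fph r * Real.log r := by
    push_cast
    ring
  rw [h2] at h1
  exact h1

lemma Part_derivPhi {r : ℝ} (h0 : 0 < r) : HasDerivAt fPhi (4 * r * Real.log r) r := by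
  have h1 : HasDerivAt (fun x : ℝ => 2 * x ^ 2) (4 * r) r := by
    have := (hasDerivAt_pow 2 r).const_mul 2
    have e : 2 * (((2 : ℕ) : ℝ) * r ^ (2 - 1)) = 4 * r := by
      norm_num
      ring
    rw [e] at this
    exact this
  have h2 := h1.mul (Real.hasDerivAt_log h0.ne')
  have h3 : HasDerivAt (fun x : ℝ => x ^ 2) (2 * r) r := by
    have := hasDerivAt_pow 2 r
    have e : (((2 : ℕ) : ℝ) * r ^ (2 - 1)) = 2 * r := by norm_num
    rw [e] at this
    exact this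
  have h4 := h2.sub h3
  have h5 : 4 * r * Real.log r + 2 * r ^ 2 * r⁻¹ - 2 * r = 4 * r * Real.log r := by
    field_simp
    ring
  rw [h5] at h4
  exact h4

lemma Part_cell {r s c d : ℝ} (h0 : 0 < r) (h : r ≤ s) (h1 : s < 1)
    (hz : ∀ t, r ≤ t → t ≤ s → c * t ≤ d * (2 * fph t)) :
    c * (fPhi r - fPhi s) ≤ 1 / 2 * d * (fW r - fW s) := by
  let g : ℝ → ℝ := fun t => c * fPhi t - 1 / 2 * d * fW t
  have hg : ∀ x ∈ Set.Icc r s, HasDerivAt g (c * (4 * x * Real.log x) -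
      1 / 2 * d * (16 * fph x * Real.log x)) x := fun x hx =>
    ((Part_derivPhi (h0.trans_le hx.1)).const_mul c).sub
      ((Part_derivW (h0.trans_le hx.1)).const_mul (1 / 2 * d))
  have h2 : MonotoneOn g (Set.Icc r s) := by
    apply monotoneOn_of_deriv_nonneg (convex_Icc r s)
    · exact fun x hx => (hg x hx).continuousAt.continuousWithinAt
    · rw [interior_Icc]
      exact fun x hx => (hg x (Set.Ioo_subset_Icc_self hx)).differentiableAt.differentiableWithinAt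
    · intro x hx
      rw [interior_Icc] at hx
      rw [(hg x (Set.Ioo_subset_Icc_self hx)).deriv]
      have h3 := hz x hx.1.le hx.2.le
      have h4 : Real.log x < 0 := Real.log_neg (h0.trans hx.1) (hx.2.trans h1)
      have h5 : c * (4 * x * Real.log x) - 1 / 2 * d * (16 * fph x * Real.log x) =
        4 * (-Real.log x) * (d * (2 * fph x) - c * x) := by ring
      rw [h5]
      have h6 : 0 ≤ -Real.log x := by linarith
      have h7 : 0 ≤ d * (2 * fph x) - c * x := by linarith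
      positivity
  have h3 := h2 (Set.left_mem_Icc.2 h) (Set.right_mem_Icc.2 h) h
  simp only [g] at h3
  linarith

/-- PROOF: `h s = (1/2) z(r) (W r - W s) - (1-ε) (Φ r - Φ s)` has `h r = 0` and
`h' s = (-W' s / 2) (z r - (1-ε) z s) ≥ 0`, because `(-W'/2) z = -Φ'`, `W' = 16 φ log s`. -/
lemma cell_lower {r s ε : ℝ} (h0 : 0 < r) (h : r ≤ s) (h1 : s < 1)
    (hz : ∀ t, r ≤ t → t ≤ s → (1 - ε) * fz t ≤ fz r) :
    (1 - ε) * (fPhi r - fPhi s) ≤ 1 / 2 * fz r * (fW r - fW s) := by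
  apply Part_cell h0 h h1
  intro t h2 h3
  have h4 := hz t h2 h3
  have h5 := fph_pos (h0.trans_le h2) (h3.trans_lt h1)
  unfold fz at h4 ⊢
  have h6 : (1 - ε) * t = (1 - ε) * (t / (2 * fph t)) * (2 * fph t) := by
    field_simp
  rw [h6]
  apply mul_le_mul_of_nonneg_right h4
  linarith

/-- Same with the opposite sign. -/
lemma cell_upper {r s ε : ℝ} (h0 : 0 < r) (h : r ≤ s) (h1 : s < 1)
    (hz : ∀ t, r ≤ t → t ≤ s → fz s ≤ (1 + ε) * fz t) :
    1 / 2 * fz s * (fW r - fW s) ≤ (1 + ε) * (fPhi r - fPhi s) := by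
  have h2 := Part_cell (c := -(1 + ε)) (d := -fz s) h0 h h1 (by
    intro t h2 h3
    have h4 := hz t h2 h3
    have h5 := fph_pos (h0.trans_le h2) (h3.trans_lt h1)
    have h6 : (1 + ε) * t = (1 + ε) * fz t * (2 * fph t) := by
      unfold fz
      field_simp
    have h7 : fz s * (2 * fph t) ≤ (1 + ε) * fz t * (2 * fph t) := by
      apply mul_le_mul_of_nonneg_right h4
      linarith
    rw [neg_mul, neg_mul, h6]
    linarith)
  linarith

lemma Part_cont_fph : Continuous fph := by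
  unfold fph
  exact (continuous_const.sub continuous_id).add Real.continuous_mul_log

lemma Part_fz_pos {r : ℝ} (h0 : 0 < r) (h1 : r < 1) : 0 < fz r := by
  have := fph_pos h0 h1
  unfold fz
  positivity

/-- For every `ε > 0` and `0 < a < b < 1` there is an equidistant partition
`ρ i = a + i (b-a)/n` for which `(1-ε) z(t) ≤ z(ρ i)` and `z(ρ (i+1)) ≤ (1+ε) z(t)` on every cell.
PROOF: `z` is continuous and bounded below by `z a > 0` on `[a,b]`, uniform continuity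
(`CompactSpace`/`IsCompact.uniformContinuousOn_of_continuous`). -/
lemma exists_partition {a b ε : ℝ} (h0 : 0 < a) (h : a < b) (h1 : b < 1) (hε : 0 < ε) :
    ∃ (n : ℕ) (ρ : ℕ → ℝ), 0 < n ∧ ρ 0 = a ∧ ρ n = b ∧ (∀ i < n, ρ i < ρ (i + 1)) ∧
      (∀ i < n, ∀ t, ρ i ≤ t → t ≤ ρ (i + 1) →
        (1 - ε) * fz t ≤ fz (ρ i) ∧ fz (ρ (i + 1)) ≤ (1 + ε) * fz t) := by
  have hcont : ContinuousOn fz (Set.Icc a b) := by
    intro x hx
    have h2 := fph_pos (h0.trans_le hx.1) (hx.2.trans_lt h1)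
    unfold fz
    exact (continuous_id.continuousAt.div (continuous_const.mul Part_cont_fph).continuousAt
      (mul_pos two_pos h2).ne').continuousWithinAt
  have hu := isCompact_Icc.uniformContinuousOn_of_continuous hcont
  have hza : 0 < fz a := Part_fz_pos h0 (h.trans h1)
  rw [Metric.uniformContinuousOn_iff] at hu
  obtain ⟨δ, hδ, hδ2⟩ := hu (ε * fz a) (by positivity)
  obtain ⟨n, hn⟩ := exists_nat_gt ((b - a) / δ)
  have hba : 0 < b - a := by linarith
  have hn0 : (0 : ℝ) < n := lt_of_le_of_lt (by positivity) hn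
  have hn1 : 0 < n := by exact_mod_cast hn0
  have hstep : (b - a) / n < δ := by
    rw [div_lt_iff₀ hn0]
    rw [div_lt_iff₀ hδ] at hn
    linarith
  refine ⟨n, fun i => a + i * ((b - a) / n), hn1, by simp, ?_, ?_, ?_⟩
  · simp only
    field_simp
    ring
  · intro i _
    push_cast
    have : 0 < (b - a) / n := by positivity
    linarith
  · intro i hi t ht1 ht2
    simp only at ht1 ht2 ⊢
    push_cast at ht2 ⊢
    have hst : 0 < (b - a) / n := by positivity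
    have hi0 : (0 : ℝ) ≤ i := Nat.cast_nonneg i
    have hin : (i : ℝ) + 1 ≤ n := by exact_mod_cast hi
    have e1 : a ≤ a + i * ((b - a) / n) := by
      have : 0 ≤ i * ((b - a) / n) := by positivity
      linarith
    have e2 : a + (i + 1) * ((b - a) / n) ≤ b := by
      have h3 : ((i : ℝ) + 1) * ((b - a) / n) ≤ n * ((b - a) / n) := by gcongr
      have h4 : (n : ℝ) * ((b - a) / n) = b - a := by field_simp
      linarith
    have m1 : a + i * ((b - a) / n) ∈ Set.Icc a b := ⟨e1, by linarith⟩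
    have m2 : a + (i + 1) * ((b - a) / n) ∈ Set.Icc a b := ⟨by linarith, e2⟩
    have m3 : t ∈ Set.Icc a b := ⟨by linarith, by linarith⟩
    have hzt : fz a ≤ fz t := fz_mono h0 m3.1 (m3.2.trans_lt h1)
    have d1 := hδ2 _ m1 _ m3 (by
      rw [Real.dist_eq, abs_lt]
      constructor <;> linarith)
    have d2 := hδ2 _ m2 _ m3 (by
      rw [Real.dist_eq, abs_lt]
      constructor <;> linarith)
    rw [Real.dist_eq, abs_lt] at d1 d2
    have h5 : ε * fz a ≤ ε * fz t := by gcongr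
    constructor
    · linarith [d1.1]
    · linarith [d2.2]

/-- `Φ(r) → 0` as `r → 0+` and `Φ(r) → -1` as `r → 1-`; `z(r) → 0`, `W(r) → 8` as `r → 0+` and
`W(r) → 0` as `r → 1-`. So for `ε > 0` there are `a, b`. (`Real.tendsto_mul_log_one_sub..`;
`r log r → 0` is `Real.tendsto_log_mul_self_nhdsGT_zero` or similar; near 1 continuity.) -/
lemma exists_ends {ε : ℝ} (hε : 0 < ε) :
    ∃ a b : ℝ, 0 < a ∧ a < b ∧ b < 1 ∧ 1 - ε ≤ fPhi a - fPhi b ∧ fPhi a - fPhi b ≤ 1 + ε ∧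
      fz a ≤ ε ∧ 8 - ε ≤ fW a ∧ fW b ≤ ε := by
  have hphi : Continuous fPhi := by
    have h1 : fPhi = fun r => 2 * r * (r * Real.log r) - r ^ 2 := by
      funext r
      unfold fPhi
      ring
    rw [h1]
    exact ((continuous_const.mul continuous_id).mul Real.continuous_mul_log).sub
      (continuous_id.pow 2)
  have hW : Continuous fW := by
    unfold fW
    exact continuous_const.mul (Part_cont_fph.pow 2)
  have hz : ContinuousAt fz 0 := by
    unfold fz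
    apply continuous_id.continuousAt.div (continuous_const.mul Part_cont_fph).continuousAt
    simp [fph]
  have p0 : fPhi 0 = 0 := by simp [fPhi]
  have p1 : fPhi 1 = -1 := by simp [fPhi]
  have w0 : fW 0 = 8 := by simp [fW, fph]
  have w1 : fW 1 = 0 := by simp [fW, fph]
  have z0 : fz 0 = 0 := by simp [fz]
  have a1 : ∀ᶠ r in nhdsWithin (0 : ℝ) (Set.Ioi 0), |fPhi r - 0| < ε / 2 := by
    have := Metric.tendsto_nhds.1 (hphi.tendsto 0) (ε / 2) (by linarith)
    rw [p0] at this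
    exact nhdsWithin_le_nhds this
  have a2 : ∀ᶠ r in nhdsWithin (0 : ℝ) (Set.Ioi 0), |fz r - 0| < ε := by
    have := Metric.tendsto_nhds.1 hz.tendsto ε hε
    rw [z0] at this
    exact nhdsWithin_le_nhds this
  have a3 : ∀ᶠ r in nhdsWithin (0 : ℝ) (Set.Ioi 0), |fW r - 8| < ε := by
    have := Metric.tendsto_nhds.1 (hW.tendsto 0) ε hε
    rw [w0] at this
    exact nhdsWithin_le_nhds this
  have a4 : ∀ᶠ r in nhdsWithin (0 : ℝ) (Set.Ioi 0), r < 1 / 2 :=
    nhdsWithin_le_nhds (eventually_lt_nhds (by norm_num))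
  have a5 : ∀ᶠ r in nhdsWithin (0 : ℝ) (Set.Ioi 0), 0 < r := self_mem_nhdsWithin
  obtain ⟨a, ⟨⟨⟨ha1, ha2⟩, ha3⟩, ha4⟩, ha5⟩ := ((((a1.and a2).and a3).and a4).and a5).exists
  have b1 : ∀ᶠ r in nhdsWithin (1 : ℝ) (Set.Iio 1), |fPhi r - (-1)| < ε / 2 := by
    have := Metric.tendsto_nhds.1 (hphi.tendsto 1) (ε / 2) (by linarith)
    rw [p1] at this
    exact nhdsWithin_le_nhds this
  have b3 : ∀ᶠ r in nhdsWithin (1 : ℝ) (Set.Iio 1), |fW r - 0| < ε := by
    have := Metric.tendsto_nhds.1 (hW.tendsto 1) ε hε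
    rw [w1] at this
    exact nhdsWithin_le_nhds this
  have b4 : ∀ᶠ r in nhdsWithin (1 : ℝ) (Set.Iio 1), 1 / 2 < r :=
    nhdsWithin_le_nhds (eventually_gt_nhds (by norm_num))
  have b5 : ∀ᶠ r in nhdsWithin (1 : ℝ) (Set.Iio 1), r < 1 := self_mem_nhdsWithin
  obtain ⟨b, ⟨⟨hb1, hb3⟩, hb4⟩, hb5⟩ := (((b1.and b3).and b4).and b5).exists
  rw [abs_lt] at ha1 ha2 ha3 hb1 hb3
  exact ⟨a, b, ha5, by linarith, hb5, by linarith [ha1.1, hb1.2], by linarith [ha1.2, hb1.1],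
    by linarith [ha2.2], by linarith [ha3.1], by linarith [hb3.2]⟩

lemma Part_mono {n : ℕ} {ρ : ℕ → ℝ} (h : ∀ i < n, ρ i < ρ (i + 1)) (i j : ℕ) (hij : i ≤ j)
    (hj : j ≤ n) : ρ i ≤ ρ j := by
  induction j, hij using Nat.le_induction with
  | base => exact le_rfl
  | succ j _ ih => exact (ih (by omega)).trans (h j (by omega)).le

/-- Lower Riemann sums. PROOF: `exists_ends`, `exists_partition`, `cell_lower`, telescoping. -/
theorem riemann_lower {ε : ℝ} (hε : 0 < ε) (hε1 : ε < 1) :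
    ∃ (n : ℕ) (ρ : ℕ → ℝ), 0 < n ∧ (∀ i ≤ n, 0 < ρ i ∧ ρ i < 1) ∧ (∀ i < n, ρ i < ρ (i + 1)) ∧
      1 - ε ≤ ∑ i ∈ range n, 1 / 2 * fz (ρ i) * (fW (ρ i) - fW (ρ (i + 1))) := by
  obtain ⟨a, b, h0, hab, h1, hP, _, _, _, _⟩ := exists_ends (ε := ε / 2) (by linarith)
  obtain ⟨n, ρ, hn, hρ0, hρn, hρ, hcell⟩ := exists_partition (ε := ε / 2) h0 hab h1 (by linarith)
  have hmem : ∀ i ≤ n, a ≤ ρ i ∧ ρ i ≤ b := by
    intro i hi
    refine ⟨?_, ?_⟩
    · rw [← hρ0]; exact Part_mono hρ 0 i (Nat.zero_le i) hi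
    · rw [← hρn]; exact Part_mono hρ i n hi le_rfl
  refine ⟨n, ρ, hn, fun i hi => ⟨h0.trans_le (hmem i hi).1, (hmem i hi).2.trans_lt h1⟩, hρ, ?_⟩
  have h2 : ∑ i ∈ range n, (1 - ε / 2) * (fPhi (ρ i) - fPhi (ρ (i + 1))) ≤
      ∑ i ∈ range n, 1 / 2 * fz (ρ i) * (fW (ρ i) - fW (ρ (i + 1))) := by
    apply sum_le_sum
    intro i hi
    rw [mem_range] at hi
    exact cell_lower (h0.trans_le (hmem i hi.le).1) (hρ i hi).le
      ((hmem (i + 1) hi).2.trans_lt h1) (fun t h3 h4 => (hcell i hi t h3 h4).1)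
  rw [← mul_sum, sum_range_sub' (fun i => fPhi (ρ i)), hρ0, hρn] at h2
  have h3 : (1 - ε / 2) * (1 - ε / 2) ≤ (1 - ε / 2) * (fPhi a - fPhi b) :=
    mul_le_mul_of_nonneg_left hP (by linarith)
  nlinarith

/-- Upper Riemann sums. PROOF: `exists_ends`, `exists_partition`, `cell_upper`, telescoping. -/
theorem riemann_upper {ε : ℝ} (hε : 0 < ε) :
    ∃ (n : ℕ) (ρ : ℕ → ℝ), 0 < n ∧ (∀ i ≤ n, 0 < ρ i ∧ ρ i < 1) ∧ (∀ i < n, ρ i < ρ (i + 1)) ∧
      ∑ i ∈ range n, 1 / 2 * fz (ρ (i + 1)) * (fW (ρ i) - fW (ρ (i + 1))) ≤ 1 + ε ∧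
      fz (ρ 0) ≤ ε ∧ 8 - ε ≤ fW (ρ 0) ∧ fW (ρ n) ≤ ε := by
  obtain ⟨δ, hδ, hδε, hδ1⟩ : ∃ δ : ℝ, 0 < δ ∧ 3 * δ ≤ ε ∧ δ ≤ 1 :=
    ⟨min (ε / 3) 1, by positivity, by linarith [min_le_left (ε / 3) 1], min_le_right _ _⟩
  obtain ⟨a, b, h0, hab, h1, _, hP, hz, hW0, hW1⟩ := exists_ends (ε := δ) hδ
  obtain ⟨n, ρ, hn, hρ0, hρn, hρ, hcell⟩ := exists_partition (ε := δ) h0 hab h1 hδ
  have hmem : ∀ i ≤ n, a ≤ ρ i ∧ ρ i ≤ b := by
    intro i hi
    refine ⟨?_, ?_⟩
    · rw [← hρ0]; exact Part_mono hρ 0 i (Nat.zero_le i) hi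
    · rw [← hρn]; exact Part_mono hρ i n hi le_rfl
  refine ⟨n, ρ, hn, fun i hi => ⟨h0.trans_le (hmem i hi).1, (hmem i hi).2.trans_lt h1⟩, hρ, ?_,
    ?_, ?_, ?_⟩
  · have h2 : ∑ i ∈ range n, 1 / 2 * fz (ρ (i + 1)) * (fW (ρ i) - fW (ρ (i + 1))) ≤
        ∑ i ∈ range n, (1 + δ) * (fPhi (ρ i) - fPhi (ρ (i + 1))) := by
      apply sum_le_sum
      intro i hi
      rw [mem_range] at hi
      exact cell_upper (h0.trans_le (hmem i hi.le).1) (hρ i hi).le
        ((hmem (i + 1) hi).2.trans_lt h1) (fun t h3 h4 => (hcell i hi t h3 h4).2)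
    rw [← mul_sum, sum_range_sub' (fun i => fPhi (ρ i)), hρ0, hρn] at h2
    have h3 : (1 + δ) * (fPhi a - fPhi b) ≤ (1 + δ) * (1 + δ) :=
      mul_le_mul_of_nonneg_left hP (by linarith)
    nlinarith
  · rw [hρ0]; linarith
  · rw [hρ0]; linarith
  · rw [hρn]; linarith

end Pool.Agent.H.MP_b3c6db_nt
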