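import Pool.Agent.H.MP_b3c6db_nt.WI6

/-! Sums of `log p` over `p ≡ 3 mod 4` in intervals. -/

namespace Pool.Agent.H.MP_b3c6db_nt

open Finset Filter Topology

/-- primes `≡ 3 mod 4` in `(x, y]`. -/
noncomputable def PI3 (x y : ℝ) : Finset ℕ :=
  (Ioc ⌊x⌋₊ ⌊y⌋₊).filter (fun p => p.Prime ∧ p % 4 = 3)

/-- membership. For `0 ≤ x`: `p ∈ PI3 x y ↔ p.Prime ∧ p % 4 = 3 ∧ x < p ∧ p ≤ y`
(`Nat.floor_lt`, `Nat.le_floor`; for `y < 0` both sides are empty). -/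
lemma mem_PI3 {x y : ℝ} (hx : 0 ≤ x) (p : ℕ) :
    p ∈ PI3 x y ↔ p.Prime ∧ p % 4 = 3 ∧ x < (p : ℝ) ∧ (p : ℝ) ≤ y := by
  unfold PI3
  rw [mem_filter, mem_Ioc, Nat.floor_lt hx]
  constructor
  · rintro ⟨⟨h1, h2⟩, h3, h4⟩
    exact ⟨h3, h4, h1, (Nat.le_floor_iff' h3.ne_zero).1 h2⟩
  · rintro ⟨h3, h4, h1, h2⟩
    exact ⟨⟨h1, (Nat.le_floor_iff' h3.ne_zero).2 h2⟩, h3, h4⟩

lemma ThetaAP_res (k : ℕ) : (k : ZMod 4) = (3 : ZMod 4) ↔ k % 4 = 3 := by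
  have h : (3 : ZMod 4) = ((3 : ℕ) : ZMod 4) := rfl
  rw [h, ZMod.natCast_eq_natCast_iff']

lemma ThetaAP_Ioc (x : ℝ) : B3WI.thetaq (3 : ZMod 4) x =
    ∑ k ∈ Ioc 0 ⌊x⌋₊, if k.Prime ∧ k % 4 = 3 then Real.log k else 0 := by
  unfold B3WI.thetaq
  have h : Icc 1 ⌊x⌋₊ = Ioc 0 ⌊x⌋₊ := by
    ext k
    rw [mem_Icc, mem_Ioc]
    rfl
  rw [h]
  refine sum_congr rfl fun k _ => ?_
  simp only [ThetaAP_res]

/-- the sum over `PI3 x y` is a difference of two values of `B3WI.thetaq (3 : ZMod 4)`, `x ≤ y`. -/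
lemma sum_PI3 {x y : ℝ} (hx : 0 ≤ x) (hxy : x ≤ y) :
    ∑ p ∈ PI3 x y, Real.log p = B3WI.thetaq (3 : ZMod 4) y - B3WI.thetaq (3 : ZMod 4) x := by
  have h1 : ⌊x⌋₊ ≤ ⌊y⌋₊ := Nat.floor_le_floor hxy
  rw [ThetaAP_Ioc, ThetaAP_Ioc, ← sum_Ioc_consecutive _ (Nat.zero_le _) h1, add_sub_cancel_left]
  unfold PI3
  rw [sum_filter]

lemma ThetaAP_scaled {a : ℝ} (ha : 0 ≤ a) :
    Tendsto (fun y : ℝ => B3WI.thetaq (3 : ZMod 4) (a * y) / y) atTop (𝓝 (a / 2)) := by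
  rcases ha.eq_or_lt with h0 | h0
  · have h1 : ∀ y : ℝ, B3WI.thetaq (3 : ZMod 4) (a * y) / y = 0 := by
      intro y
      rw [← h0, zero_mul, ThetaAP_Ioc, Nat.floor_zero, Ioc_self, sum_empty, zero_div]
    have h2 : a / 2 = 0 := by rw [← h0, zero_div]
    rw [h2]
    exact tendsto_const_nhds.congr fun y => (h1 y).symm
  · have h1 := B3WI.thetaq_asymp (q := 4) (a := 3) (by decide)
    have h2 : ((Nat.totient 4 : ℕ) : ℝ)⁻¹ = 1 / 2 := by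
      have h3 : Nat.totient 4 = 2 := by decide
      rw [h3]
      norm_num
    rw [h2] at h1
    have h3 : Tendsto (fun y : ℝ => a * y) atTop atTop := tendsto_id.const_mul_atTop h0
    have h4 := (h1.comp h3).const_mul a
    have h5 : a * (1 / 2) = a / 2 := by ring
    rw [h5] at h4
    refine h4.congr fun y => ?_
    simp only [Function.comp]
    rw [← mul_div_assoc, mul_div_mul_left _ _ h0.ne']

/-- PNT: for `0 ≤ a < b`: `∑_{a y < p ≤ b y, p ≡ 3 (4)} log p / y → (b - a)/2`.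
PROOF: `B3WI.thetaq_asymp` with `q = 4`, totient `2`, `a = 3` is a unit of `ZMod 4` (`decide`). -/
theorem PI3_asymp {a b : ℝ} (ha : 0 ≤ a) (hab : a < b) :
    Tendsto (fun y : ℝ => (∑ p ∈ PI3 (a * y) (b * y), Real.log p) / y) atTop (𝓝 ((b - a) / 2)) := by
  have h1 := (ThetaAP_scaled (ha.trans hab.le)).sub (ThetaAP_scaled ha)
  have h2 : b / 2 - a / 2 = (b - a) / 2 := by ring
  rw [h2] at h1
  refine h1.congr' ?_
  filter_upwards [eventually_ge_atTop (0 : ℝ)] with y hy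
  rw [sum_PI3 (mul_nonneg ha hy) (mul_le_mul_of_nonneg_right hab.le hy), sub_div]

end Pool.Agent.H.MP_b3c6db_nt
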