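import Pool.Agent.H.MP_b3c6db_nt.SA4
import Pool.Agent.H.MP_b3c6db_nt.SA.Part
import Pool.Agent.H.MP_b3c6db_nt.SA.ThetaAP

/-! The sharp lower bound, deterministic form. -/

namespace Pool.Agent.H.MP_b3c6db_nt

open Finset

/-- the index set: pairs `(i, p)`, `p ≡ 3 mod 4` prime in the `i`-th cell. -/
noncomputable def IA (n : ℕ) (ρ : ℕ → ℝ) (y : ℝ) : Finset (Σ _ : ℕ, ℕ) :=
  (range n).sigma (fun i => PI3 (fW (ρ (i + 1)) * y) (fW (ρ i) * y))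

lemma LowA_fW_nonneg (r : ℝ) : 0 ≤ fW r := by
  unfold fW
  positivity

lemma LowA_mem {n : ℕ} {ρ : ℕ → ℝ} {y : ℝ} (hy : 0 ≤ y) {j : Σ _ : ℕ, ℕ} :
    j ∈ IA n ρ y ↔ j.1 < n ∧ (j.2.Prime ∧ j.2 % 4 = 3 ∧ fW (ρ (j.1 + 1)) * y < (j.2 : ℝ) ∧
      (j.2 : ℝ) ≤ fW (ρ j.1) * y) := by
  unfold IA
  rw [mem_sigma, mem_range, mem_PI3 (mul_nonneg (LowA_fW_nonneg _) hy)]

lemma LowA_fW_le {n : ℕ} {ρ : ℕ → ℝ} (hρ : ∀ i ≤ n, 0 < ρ i ∧ ρ i < 1)
    (hρm : ∀ i < n, ρ i < ρ (i + 1)) {i j : ℕ} (hij : i ≤ j) (hj : j ≤ n) :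
    fW (ρ j) ≤ fW (ρ i) := by
  rcases (Part_mono hρm i j hij hj).eq_or_lt with h | h
  · rw [h]
  · exact (fW_anti (hρ i (hij.trans hj)).1 h (hρ j hj).2).le

/-- `∑_{(i,p)} v_p(k) log p ≤ log k` for `k ≥ 1`: the cells are disjoint (`fW_anti`: `ρ`
increasing, so the intervals `(W(ρ (i+1)) y, W(ρ i) y]` are disjoint), so the map
`(i,p) ↦ p` is injective on `IA`; `∑_{p ∣ k} v_p(k) log p = log k`
(`Nat.factorization_prod_pow_eq_self`). -/
lemma IA_sum_val_le (n : ℕ) (ρ : ℕ → ℝ) (hρ : ∀ i ≤ n, 0 < ρ i ∧ ρ i < 1)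
    (hρm : ∀ i < n, ρ i < ρ (i + 1)) (y : ℝ) (hy : 0 < y) (k : ℕ) (hk : k ≠ 0) :
    ∑ j ∈ IA n ρ y, (padicValNat j.2 k : ℝ) * Real.log j.2 ≤ Real.log k := by
  have hinj : Set.InjOn (fun j : (Σ _ : ℕ, ℕ) => j.2) (IA n ρ y) := by
    rintro ⟨i, p⟩ hi ⟨i', p'⟩ hi' h
    have h' : p = p' := h
    subst h'
    obtain ⟨h1, h2⟩ := (LowA_mem hy.le).1 (Finset.mem_coe.1 hi)
    obtain ⟨h3, h4⟩ := (LowA_mem hy.le).1 (Finset.mem_coe.1 hi')
    have key : ∀ a b : ℕ, a < n → b < n → fW (ρ (a + 1)) * y < (p : ℝ) →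
        (p : ℝ) ≤ fW (ρ b) * y → ¬ a < b := by
      intro a b ha hb h5 h6 hab
      have h7 := LowA_fW_le hρ hρm (show a + 1 ≤ b by omega) (by omega : b ≤ n)
      have h8 := mul_le_mul_of_nonneg_right h7 hy.le
      linarith
    have h5 := key i i' h1 h3 h2.2.2.1 h4.2.2.2
    have h6 := key i' i h3 h1 h4.2.2.1 h2.2.2.2
    have h7 : i = i' := by omega
    subst h7
    rfl
  have h1 : ∑ j ∈ IA n ρ y, (padicValNat j.2 k : ℝ) * Real.log j.2 =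
      ∑ p ∈ (IA n ρ y).image (fun j => j.2), (padicValNat p k : ℝ) * Real.log p :=
    (sum_image (f := fun p : ℕ => (padicValNat p k : ℝ) * Real.log p) hinj).symm
  rw [h1, Real.log_nat_eq_sum_factorization, Finsupp.sum]
  have h2 : ∀ p ∈ (IA n ρ y).image (fun j => j.2), p.Prime := by
    intro p hp
    obtain ⟨j, hj, rfl⟩ := mem_image.1 hp
    exact ((LowA_mem hy.le).1 hj).2.1
  have h3 : ∑ p ∈ (IA n ρ y).image (fun j => j.2), (padicValNat p k : ℝ) * Real.log p =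
      ∑ p ∈ (IA n ρ y).image (fun j => j.2), (k.factorization p : ℝ) * Real.log p := by
    refine sum_congr rfl fun p hp => ?_
    rw [Nat.factorization_def k (h2 p hp)]
  rw [h3]
  have h4 : ∀ p ∈ (IA n ρ y).image (fun j => j.2), (k.factorization p : ℝ) * Real.log p ≠ 0 →
      p ∈ k.factorization.support := by
    intro p _ h0
    rw [Finsupp.mem_support_iff]
    intro h5
    apply h0
    rw [h5, Nat.cast_zero, zero_mul]
  rw [← sum_filter_of_ne h4]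
  refine sum_le_sum_of_subset_of_nonneg ?_ fun p _ _ => ?_
  · intro p hp
    exact (mem_filter.1 hp).2
  · exact mul_nonneg (Nat.cast_nonneg _) (Real.log_natCast_nonneg _)

/-- One index. PROOF. `log (1 + u) ≥ θ log u` for `0 ≤ θ ≤ 1`, `u > 0`. Here
`u = q e^{λ T} ρ^v`, `log u = log q + λ T - v log (1/ρ) ≥ A - v b'`, with
`λ T = (1-κ) (1-ρ) T/√p ≥ (1-κ)(1-ρ)(1+ε) L/(2 φ(ρ))` because `p ≤ W(ρ) y = 8 φ² y`,
`T = (1+ε) √(2 y) L`, and `(1-ρ)/(2 φ) = 1/2 + z(ρ) b'`, `b' = log (1/ρ)`, so that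
`log q + λ T ≥ L ((1-κ)(1+ε)(1/2 + z b') - (1+κ)/2) ≥ (1+ε/2) z b' L` (`κ ≤ ε/16`, `ε ≤ 1`).
Take `θ = b log p/(2 L b')`, `b ≤ b'`, `log p ≤ 2 L`. -/
lemma one_index (κ ε L y T q b ρ : ℝ) (p v : ℕ) (hκ0 : 0 < κ) (hκ : κ ≤ ε / 16) (hε : ε ≤ 1)
    (hL : 1 ≤ L) (hy : 0 < y) (hT : T = (1 + ε) * Real.sqrt (2 * y) * L) (hq : 0 < q)
    (hq1 : -Real.log q ≤ (1 + κ) / 2 * L) (hb : 0 < b) (hbρ : b ≤ -Real.log ρ) (hρ0 : 0 < ρ)
    (hρ1 : ρ < 1) (hp : p.Prime) (hp1 : (p : ℝ) ≤ fW ρ * y) (hp2 : Real.log p ≤ 2 * L) :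
    b / (2 * L) * ((1 + ε / 2) * fz ρ * L * Real.log p - v * Real.log p) ≤
      Real.log (1 + q * Real.exp ((1 - κ) * (1 - ρ) / Real.sqrt p * T) * ρ ^ v) := by
  have hp0 : (1 : ℝ) ≤ p := by exact_mod_cast hp.one_lt.le
  have hlp : 0 ≤ Real.log p := Real.log_nonneg hp0
  have hsp : 0 < Real.sqrt p := Real.sqrt_pos.2 (by linarith)
  obtain ⟨φ, hφ⟩ : ∃ φ, φ = fph ρ := ⟨_, rfl⟩
  have hφ0 : 0 < φ := by rw [hφ]; exact fph_pos hρ0 hρ1
  obtain ⟨b', hb'⟩ : ∃ b', b' = -Real.log ρ := ⟨_, rfl⟩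
  have hb'0 : 0 < b' := by rw [hb']; linarith
  obtain ⟨s, hs⟩ : ∃ s, s = Real.sqrt (2 * y) := ⟨_, rfl⟩
  have hs0 : 0 < s := by rw [hs]; exact Real.sqrt_pos.2 (by linarith)
  have hε0 : 0 < ε := by linarith
  have h1ρ : 1 - ρ = φ + ρ * b' := by
    rw [hφ, hb']
    unfold fph
    ring
  have hsqrt : Real.sqrt p ≤ 2 * φ * s := by
    have h1 : (2 * φ * s) ^ 2 = fW ρ * y := by
      have h2 : s ^ 2 = 2 * y := by rw [hs]; exact Real.sq_sqrt (by linarith)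
      unfold fW
      rw [← hφ, mul_pow, h2]
      ring
    rw [Real.sqrt_le_left (by positivity), h1]
    exact hp1
  have hz : fz ρ = ρ / (2 * φ) := by
    unfold fz
    rw [hφ]
  have hz0 : 0 < fz ρ := by
    rw [hz]
    positivity
  obtain ⟨z, hzz⟩ : ∃ z, z = fz ρ := ⟨_, rfl⟩
  rw [← hzz] at hz hz0 ⊢
  -- the exponent
  have hlam : (1 - κ) * (1 + ε) * (1 / 2 + z * b') * L ≤
      (1 - κ) * (1 - ρ) / Real.sqrt p * T := by
    have h1 : (1 - κ) * (1 - ρ) / (2 * φ * s) * T ≤ (1 - κ) * (1 - ρ) / Real.sqrt p * T := by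
      have hT0 : 0 ≤ T := by
        rw [hT, ← hs]
        positivity
      refine mul_le_mul_of_nonneg_right ?_ hT0
      exact div_le_div_of_nonneg_left (mul_nonneg (by linarith) (by linarith)) hsp hsqrt
    refine le_trans (le_of_eq ?_) h1
    rw [hT, ← hs, h1ρ, hz]
    field_simp
  have hc1 : 1 + κ ≤ (1 - κ) * (1 + ε) := by nlinarith
  have hc2 : 1 + ε / 2 ≤ (1 - κ) * (1 + ε) := by nlinarith
  have hmain : (1 + ε / 2) * z * b' * L ≤
      Real.log q + (1 - κ) * (1 - ρ) / Real.sqrt p * T := by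
    have h1 : (1 + κ) / 2 * L ≤ (1 - κ) * (1 + ε) * (1 / 2) * L := by nlinarith
    have h2 : (1 + ε / 2) * (z * b' * L) ≤ (1 - κ) * (1 + ε) * (z * b' * L) :=
      mul_le_mul_of_nonneg_right hc2 (by positivity)
    nlinarith
  obtain ⟨u, hu⟩ : ∃ u, u = q * Real.exp ((1 - κ) * (1 - ρ) / Real.sqrt p * T) * ρ ^ v := ⟨_, rfl⟩
  have hu0 : 0 < u := by
    rw [hu]
    positivity
  have hlu : Real.log u = Real.log q + (1 - κ) * (1 - ρ) / Real.sqrt p * T - v * b' := by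
    rw [hu, Real.log_mul (by positivity) (by positivity), Real.log_mul hq.ne' (Real.exp_pos _).ne',
      Real.log_exp, Real.log_pow, hb']
    ring
  rw [← hu]
  obtain ⟨θ, hθ⟩ : ∃ θ, θ = b * Real.log p / (2 * L * b') := ⟨_, rfl⟩
  have hθ0 : 0 ≤ θ := by
    rw [hθ]
    positivity
  have hθ1 : θ ≤ 1 := by
    rw [hθ, div_le_one (by positivity)]
    have h1 : b * Real.log p ≤ b' * Real.log p := mul_le_mul_of_nonneg_right (by rw [hb']; exact hbρ) hlp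
    have h2 : b' * Real.log p ≤ b' * (2 * L) := mul_le_mul_of_nonneg_left hp2 hb'0.le
    linarith
  have hlhs : b / (2 * L) * ((1 + ε / 2) * z * L * Real.log p - v * Real.log p) =
      θ * ((1 + ε / 2) * z * b' * L - v * b') := by
    rw [hθ]
    field_simp
  rw [hlhs]
  have h1 : θ * ((1 + ε / 2) * z * b' * L - v * b') ≤ θ * Real.log u := by
    apply mul_le_mul_of_nonneg_left _ hθ0
    rw [hlu]
    linarith
  refine h1.trans ?_
  have h2 : Real.log u ≤ Real.log (1 + u) := Real.log_le_log hu0 (by linarith)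
  have h3 : 0 ≤ Real.log (1 + u) := Real.log_nonneg (by linarith)
  rcases le_or_gt 0 (Real.log u) with h4 | h4
  · nlinarith
  · nlinarith

/-- PROOF. `sharp_core` with `I = IA n ρ y`, `pr j = j.2`, `r j = ρ j.1`,
`lam j = (1-κ)(1-ρ j.1)/√(j.2)`. The condition `√p sin λ ≤ (1-r) cos λ`: `sin λ ≤ λ`,
`cos λ ≥ 1 - λ²/2 ≥ 1 - κ` since `λ² ≤ 1/p ≤ 2κ` (`p > W(ρ n) y ≥ 1/(2κ)`; the cells lie above
`W(ρ n) y`). The largeness: sum `one_index` over `IA` and use `IA_sum_val_le`, `log k ≤ log H ≤ ℓ`: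
`B ∑ ≥ B b/(2L) ((1+ε/2) L ∑_i z_i ∑_{p ∈ cell i} log p - ℓ) ≥ B b/(2L) ((1+ε/2)(1-κ) ℓ ∑_i z_i (W_i - W_{i+1})/2 - ℓ)
≥ B b/(2L) ((1+ε/2)(1-κ)² - 1) ℓ ≥ B b/(2L) (ε/8) ℓ ≥ ℓ + log 2 ≥ log (2H)`. -/
theorem lowerA (H : ℕ) (c : ℕ → ℝ) (hadm : Admissible H c) (n : ℕ) (ρ : ℕ → ℝ)
    (hρ : ∀ i ≤ n, 0 < ρ i ∧ ρ i < 1) (hρm : ∀ i < n, ρ i < ρ (i + 1))
    (κ ε ℓ L y T q : ℝ) (B : ℕ) (hH : 1 ≤ H) (hHℓ : Real.log H ≤ ℓ) (hℓ : 1 ≤ ℓ) (hL : 1 ≤ L)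
    (hy : y * L = ℓ) (hκ0 : 0 < κ) (hκ : κ ≤ ε / 16) (hε : ε ≤ 1)
    (hT : T = (1 + ε) * Real.sqrt (2 * y) * L) (hq : 0 < q)
    (hq1 : -Real.log q ≤ (1 + κ) / 2 * L) (hsmall : 1 / (2 * κ) ≤ fW (ρ n) * y)
    (hlog : Real.log (8 * y) ≤ 2 * L)
    (hpnt : ∀ i < n, (1 - κ) * ((fW (ρ i) - fW (ρ (i + 1))) / 2) * y ≤
      ∑ p ∈ PI3 (fW (ρ (i + 1)) * y) (fW (ρ i) * y), Real.log p)
    (hR : 1 - κ ≤ ∑ i ∈ range n, 1 / 2 * fz (ρ i) * (fW (ρ i) - fW (ρ (i + 1))))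
    (hB : ℓ + Real.log 2 ≤ B * (-Real.log (ρ n) / (2 * L)) * (ε / 8 * ℓ)) :
    Real.exp (-(q * B * (IA n ρ y).card)) * Real.exp (-(Real.pi / 2 * T)) ≤ 2 * c 0 := by
  have hL0 : 0 < L := by linarith
  have hy0 : 0 < y := by
    by_contra h
    push Not at h
    have : y * L ≤ 0 := mul_nonpos_of_nonpos_of_nonneg h hL0.le
    linarith
  have hε0 : 0 < ε := by linarith
  have hT0 : 0 ≤ T := by
    rw [hT]
    positivity
  have hn : (0 : ℝ) < 1 - κ := by linarith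
  refine sharp_core H c hadm (IA n ρ y) (fun j => j.2)
    (fun j => (1 - κ) * (1 - ρ j.1) / Real.sqrt (j.2 : ℕ)) (fun j => ρ j.1) q hq B ?_ ?_ ?_ ?_ T hT0 ?_
  · intro j hj
    have h := ((LowA_mem hy0.le).1 hj).2
    exact ⟨h.1, h.2.1⟩
  · intro j hj
    exact hρ _ ((LowA_mem hy0.le).1 hj).1.le
  · intro j hj
    obtain ⟨h1, h2, -, -⟩ := (LowA_mem hy0.le).1 hj
    have h3 := hρ _ h1.le
    have hp0 : (1 : ℝ) ≤ (j.2 : ℕ) := by exact_mod_cast h2.one_lt.le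
    have hsp : 1 ≤ Real.sqrt (j.2 : ℕ) := by
      rw [Real.one_le_sqrt]
      exact hp0
    refine ⟨div_nonneg (mul_nonneg hn.le (by linarith)) (by linarith), ?_⟩
    have h4 : (1 - κ) * (1 - ρ j.1) / Real.sqrt (j.2 : ℕ) ≤ 1 := by
      rw [div_le_one (by linarith)]
      nlinarith
    have := Real.pi_gt_three
    linarith
  · intro j hj
    obtain ⟨h1, h2, -, h5, -⟩ := (LowA_mem hy0.le).1 hj
    have h3 := hρ _ h1.le
    have hp0 : (1 : ℝ) ≤ (j.2 : ℕ) := by exact_mod_cast h2.one_lt.le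
    have hsp : 0 < Real.sqrt (j.2 : ℕ) := Real.sqrt_pos.2 (by linarith)
    obtain ⟨l, hl⟩ : ∃ l, l = (1 - κ) * (1 - ρ j.1) / Real.sqrt (j.2 : ℕ) := ⟨_, rfl⟩
    have hl0 : 0 ≤ l := by
      rw [hl]
      exact div_nonneg (mul_nonneg hn.le (by linarith)) hsp.le
    have hsl : Real.sqrt (j.2 : ℕ) * l = (1 - κ) * (1 - ρ j.1) := by
      rw [hl]
      field_simp
    have h6 : 1 / (2 * κ) < (j.2 : ℕ) := by
      have h7 := LowA_fW_le hρ hρm (show j.1 + 1 ≤ n by omega) le_rfl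
      have h8 := mul_le_mul_of_nonneg_right h7 hy0.le
      linarith
    have h7 : 1 < 2 * κ * (j.2 : ℕ) := by
      rw [div_lt_iff₀ (by positivity)] at h6
      linarith
    have h8 : l ^ 2 * (j.2 : ℕ) ≤ 1 := by
      have h9 : (Real.sqrt (j.2 : ℕ) * l) ^ 2 ≤ 1 := by
        rw [hsl]
        have h10 : 0 ≤ (1 - κ) * (1 - ρ j.1) := mul_nonneg hn.le (by linarith)
        have h11 : (1 - κ) * (1 - ρ j.1) ≤ 1 := by nlinarith
        nlinarith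
      rw [mul_pow, Real.sq_sqrt (by linarith)] at h9
      linarith
    have h9 : l ^ 2 ≤ 2 * κ := by
      by_contra h
      push Not at h
      have h10 : 2 * κ * (j.2 : ℕ) < l ^ 2 * (j.2 : ℕ) := mul_lt_mul_of_pos_right h (by linarith)
      linarith
    show Real.sqrt (j.2 : ℕ) * Real.sin ((1 - κ) * (1 - ρ j.1) / Real.sqrt (j.2 : ℕ)) ≤
      (1 - ρ j.1) * Real.cos ((1 - κ) * (1 - ρ j.1) / Real.sqrt (j.2 : ℕ))
    rw [← hl]
    have h10 : Real.sin l ≤ l := Real.sin_le hl0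
    have h11 : 1 - l ^ 2 / 2 ≤ Real.cos l := Real.one_sub_sq_div_two_le_cos
    have h12 : Real.sqrt (j.2 : ℕ) * Real.sin l ≤ Real.sqrt (j.2 : ℕ) * l :=
      mul_le_mul_of_nonneg_left h10 hsp.le
    have h13 : (1 - ρ j.1) * (1 - κ) ≤ (1 - ρ j.1) * Real.cos l :=
      mul_le_mul_of_nonneg_left (by linarith) (by linarith)
    linarith
  · intro k hk hkH
    obtain ⟨b, hb⟩ : ∃ b, b = -Real.log (ρ n) := ⟨_, rfl⟩
    have hρn := hρ n le_rfl
    have hb0 : 0 < b := by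
      rw [hb]
      have := Real.log_neg hρn.1 hρn.2
      linarith
    rw [← hb] at hB
    have hterm : ∀ j ∈ IA n ρ y, b / (2 * L) * ((1 + ε / 2) * fz (ρ j.1) * L * Real.log (j.2 : ℕ) -
        (padicValNat j.2 k : ℝ) * Real.log (j.2 : ℕ)) ≤
        Real.log (1 + q * Real.exp ((1 - κ) * (1 - ρ j.1) / Real.sqrt (j.2 : ℕ) * T) *
          ρ j.1 ^ padicValNat j.2 k) := by
      intro j hj
      obtain ⟨h1, h2, -, -, h5⟩ := (LowA_mem hy0.le).1 hj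
      have h3 := hρ _ h1.le
      have hp0 : (1 : ℝ) ≤ (j.2 : ℕ) := by exact_mod_cast h2.one_lt.le
      have h6 : b ≤ -Real.log (ρ j.1) := by
        rw [hb]
        have := Real.log_le_log h3.1 (Part_mono hρm j.1 n h1.le le_rfl)
        linarith
      have h7 : Real.log (j.2 : ℕ) ≤ 2 * L := by
        refine le_trans (Real.log_le_log (by linarith) ?_) hlog
        refine h5.trans (mul_le_mul_of_nonneg_right ?_ hy0.le)
        have h8 := fph_lt_one h3.1 h3.2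
        have h9 := fph_pos h3.1 h3.2
        unfold fW
        nlinarith
      exact one_index κ ε L y T q b (ρ j.1) j.2 (padicValNat j.2 k) hκ0 hκ hε hL hy0 hT hq hq1 hb0
        h6 h3.1 h3.2 h2 h5 h7
    have hsum := sum_le_sum hterm
    have hval := IA_sum_val_le n ρ hρ hρm y hy0 k hk
    have hk1 : (1 : ℝ) ≤ k := by exact_mod_cast Nat.one_le_iff_ne_zero.2 hk
    have hlogk : Real.log k ≤ ℓ := by
      refine le_trans (Real.log_le_log (by linarith) ?_) hHℓ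
      exact_mod_cast hkH
    have hsigma : ∑ j ∈ IA n ρ y, fz (ρ j.1) * Real.log (j.2 : ℕ) =
        ∑ i ∈ range n, fz (ρ i) * ∑ p ∈ PI3 (fW (ρ (i + 1)) * y) (fW (ρ i) * y), Real.log p := by
      unfold IA
      rw [sum_sigma]
      refine sum_congr rfl fun i _ => ?_
      rw [mul_sum]
    have hzsum : (1 - κ) * y * (1 - κ) ≤ ∑ j ∈ IA n ρ y, fz (ρ j.1) * Real.log (j.2 : ℕ) := by
      rw [hsigma]
      have h1 : ∀ i ∈ range n, (1 - κ) * y * (1 / 2 * fz (ρ i) * (fW (ρ i) - fW (ρ (i + 1)))) ≤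
          fz (ρ i) * ∑ p ∈ PI3 (fW (ρ (i + 1)) * y) (fW (ρ i) * y), Real.log p := by
        intro i hi
        rw [mem_range] at hi
        have h2 := hρ i hi.le
        have h3 := mul_le_mul_of_nonneg_left (hpnt i hi) (Part_fz_pos h2.1 h2.2).le
        refine le_trans (le_of_eq ?_) h3
        ring
      have h2 := sum_le_sum h1
      rw [← mul_sum] at h2
      refine le_trans ?_ h2
      exact mul_le_mul_of_nonneg_left hR (by positivity)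
    have hlin : ∑ j ∈ IA n ρ y, b / (2 * L) * ((1 + ε / 2) * fz (ρ j.1) * L * Real.log (j.2 : ℕ) -
        (padicValNat j.2 k : ℝ) * Real.log (j.2 : ℕ)) =
        b / (2 * L) * ((1 + ε / 2) * L * ∑ j ∈ IA n ρ y, fz (ρ j.1) * Real.log (j.2 : ℕ) -
          ∑ j ∈ IA n ρ y, (padicValNat j.2 k : ℝ) * Real.log (j.2 : ℕ)) := by
      rw [← mul_sum, sum_sub_distrib, mul_sum]
      congr 2
      refine sum_congr rfl fun j _ => ?_
      ring
    rw [hlin] at hsum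
    have h1 : b / (2 * L) * (ε / 8 * ℓ) ≤
        b / (2 * L) * ((1 + ε / 2) * L * ∑ j ∈ IA n ρ y, fz (ρ j.1) * Real.log (j.2 : ℕ) -
          ∑ j ∈ IA n ρ y, (padicValNat j.2 k : ℝ) * Real.log (j.2 : ℕ)) := by
      refine mul_le_mul_of_nonneg_left ?_ (by positivity)
      have h2 : (1 + ε / 2) * L * ((1 - κ) * y * (1 - κ)) ≤
          (1 + ε / 2) * L * ∑ j ∈ IA n ρ y, fz (ρ j.1) * Real.log (j.2 : ℕ) :=
        mul_le_mul_of_nonneg_left hzsum (by positivity)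
      have h3 : (1 + ε / 2) * L * ((1 - κ) * y * (1 - κ)) = (1 + ε / 2) * (1 - κ) ^ 2 * ℓ := by
        rw [← hy]
        ring
      have h4 : 1 + ε / 8 ≤ (1 + ε / 2) * (1 - κ) ^ 2 := by
        have h5 : 1 - 2 * κ ≤ (1 - κ) ^ 2 := by nlinarith [sq_nonneg κ]
        have h6 : (1 + ε / 2) * (1 - 2 * κ) ≤ (1 + ε / 2) * (1 - κ) ^ 2 :=
          mul_le_mul_of_nonneg_left h5 (by linarith)
        nlinarith
      have h5 : (1 + ε / 8) * ℓ ≤ (1 + ε / 2) * (1 - κ) ^ 2 * ℓ :=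
        mul_le_mul_of_nonneg_right h4 (by linarith)
      linarith
    have h2 := h1.trans hsum
    have h3 := mul_le_mul_of_nonneg_left h2 (Nat.cast_nonneg B : (0 : ℝ) ≤ B)
    have hH0 : (0 : ℝ) < H := by exact_mod_cast hH
    rw [Real.log_mul (by norm_num) hH0.ne']
    refine le_trans ?_ h3
    have h4 : (B : ℝ) * (b / (2 * L) * (ε / 8 * ℓ)) = B * (b / (2 * L)) * (ε / 8 * ℓ) := by ring
    rw [h4]
    linarith

end Pool.Agent.H.MP_b3c6db_nt
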