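import Pool.Agent.H.MP_b3c6db_nt.SA.LowA
import Pool.Agent.H.MP_b3c6db_nt.LowerFinal

/-! The sharp lower bound, asymptotic form. -/

namespace Pool.Agent.H.MP_b3c6db_nt

open Finset Filter

lemma LowB_fW_le {r : ℝ} (h0 : 0 < r) (h1 : r < 1) : fW r ≤ 8 := by
  have h2 := fph_pos h0 h1
  have h3 := fph_lt_one h0 h1
  unfold fW
  nlinarith

lemma LowB_fW_pos {r : ℝ} (h0 : 0 < r) (h1 : r < 1) : 0 < fW r := by
  have h2 := fph_pos h0 h1
  unfold fW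
  positivity

lemma LowB_fW_anti {r s : ℝ} (h0 : 0 < r) (h : r ≤ s) (h1 : s < 1) : fW s ≤ fW r := by
  rcases h.eq_or_lt with rfl | h2
  · exact le_rfl
  · exact (fW_anti h0 h2 h1).le

lemma LowB_mem_IA {n : ℕ} {ρ : ℕ → ℝ} (hρ : ∀ i ≤ n, 0 < ρ i ∧ ρ i < 1) {y : ℝ} (hy : 0 < y)
    {i p : ℕ} (h : (⟨i, p⟩ : Σ _ : ℕ, ℕ) ∈ IA n ρ y) :
    i < n ∧ p.Prime ∧ fW (ρ (i + 1)) * y < (p : ℝ) ∧ (p : ℝ) ≤ fW (ρ i) * y := by
  unfold IA at h
  rw [mem_sigma, mem_range] at h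
  obtain ⟨h1, h2⟩ := h
  have h3 := hρ (i + 1) h1
  have h4 := LowB_fW_pos h3.1 h3.2
  simp only at h2
  rw [mem_PI3 (by positivity)] at h2
  exact ⟨h1, h2.1, h2.2.2.1, h2.2.2.2⟩

lemma LowB_lt {n : ℕ} {ρ : ℕ → ℝ} (hρ : ∀ i ≤ n, 0 < ρ i ∧ ρ i < 1)
    (hρm : ∀ i < n, ρ i < ρ (i + 1)) {y : ℝ} (hy : 0 < y) {i j p : ℕ} (hij : i < j)
    (h : (⟨i, p⟩ : Σ _ : ℕ, ℕ) ∈ IA n ρ y) (h' : (⟨j, p⟩ : Σ _ : ℕ, ℕ) ∈ IA n ρ y) : False := by
  obtain ⟨h1, _, h2, _⟩ := LowB_mem_IA hρ hy h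
  obtain ⟨h4, _, _, h5⟩ := LowB_mem_IA hρ hy h'
  have h6 := Part_mono hρm (i + 1) j hij h4.le
  have h7 := LowB_fW_anti (hρ (i + 1) h1).1 h6 (hρ j h4.le).2
  have h8 : fW (ρ j) * y ≤ fW (ρ (i + 1)) * y := mul_le_mul_of_nonneg_right h7 hy.le
  linarith

lemma LowB_tendsto : Tendsto (fun ℓ : ℝ => ℓ / Real.log ℓ) atTop atTop := by
  have h2 : Tendsto (fun ℓ : ℝ => Real.log ℓ / ℓ) atTop (nhdsWithin 0 (Set.Ioi 0)) := by
    rw [tendsto_nhdsWithin_iff]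
    constructor
    · have := Real.isLittleO_log_id_atTop.tendsto_div_nhds_zero
      simpa using this
    · filter_upwards [eventually_gt_atTop (1 : ℝ)] with ℓ hℓ
      have : 0 < Real.log ℓ := Real.log_pos hℓ
      have : 0 < ℓ := by linarith
      exact Set.mem_Ioi.mpr (by positivity)
  have h3 := h2.inv_tendsto_nhdsGT_zero
  refine h3.congr (fun ℓ => ?_)
  simp

/-- `|IA| ≤ 8 y`: the map `(i,p) ↦ p` is injective into `(0, 8y]` (`W ≤ 8`). -/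
lemma card_IA (n : ℕ) (ρ : ℕ → ℝ) (hρ : ∀ i ≤ n, 0 < ρ i ∧ ρ i < 1)
    (hρm : ∀ i < n, ρ i < ρ (i + 1)) (y : ℝ) (hy : 0 < y) :
    ((IA n ρ y).card : ℝ) ≤ 8 * y := by
  have h1 : (IA n ρ y).card ≤ (Icc 1 ⌊8 * y⌋₊).card := by
    apply Finset.card_le_card_of_injOn (fun j => j.2)
    · rintro ⟨i, p⟩ hj
      obtain ⟨h1, h2, _, h3⟩ := LowB_mem_IA hρ hy hj
      have h4 := LowB_fW_le (hρ i h1.le).1 (hρ i h1.le).2
      have h5 : (p : ℝ) ≤ 8 * y := h3.trans (mul_le_mul_of_nonneg_right h4 hy.le)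
      rw [Finset.mem_coe, mem_Icc]
      exact ⟨h2.one_lt.le, (Nat.le_floor_iff' h2.ne_zero).2 h5⟩
    · rintro ⟨i, p⟩ hi ⟨j, p'⟩ hj hh
      simp only at hh
      subst hh
      rcases lt_trichotomy i j with h | h | h
      · exact (LowB_lt hρ hρm hy h hi hj).elim
      · rw [h]
      · exact (LowB_lt hρ hρm hy h hj hi).elim
  rw [Nat.card_Icc, Nat.add_sub_cancel] at h1
  exact le_trans (by exact_mod_cast h1) (Nat.floor_le (by positivity))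

/-- PROOF. Let `ε₁ = min ε 1 / 4`, `κ = ε₁/16`; `riemann_lower` with `κ` gives `n, ρ`. With
`ℓ = log H`, `L = log ℓ`, `y = ℓ/L`, `b = -log (ρ n) > 0`, `B = ⌈32 L/(ε₁ b)⌉`,
`q = κ √(ℓ L)/(B · 8 y)`, `T = (1+ε₁) √(2y) L = (1+ε₁) √2 √(ℓ L)` all the hypotheses of `lowerA`
hold for large `H` (`PI3_asymp` with `y → ∞`; `log (1/q) = log (B 8 y/(κ √(ℓ L))) = L/2 + O(1)`
since `B ≤ C L`, `y = ℓ/L`). With `card_IA`: `q B |IA| ≤ κ √(ℓ L)`, so
`c 0 ≥ (1/2) exp (-κ √(ℓL) - (π/2)(1+ε₁)√2 √(ℓL)) ≥ exp (-(1+ε)(π/√2) √(ℓL))`.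
Then `le_csInf` as in `lower_eventually` (LowerFinal.lean). -/
theorem lower_sharp (ε : ℝ) (hε : 0 < ε) : ∀ᶠ H : ℕ in atTop,
    Real.exp (-((1 + ε) * (Real.pi / Real.sqrt 2) *
      Real.sqrt (Real.log H * Real.log (Real.log H)))) ≤ delta H := by
  obtain ⟨ε₁, hε₁, hε₁a, hε₁b⟩ : ∃ ε₁ : ℝ, 0 < ε₁ ∧ 4 * ε₁ ≤ ε ∧ ε₁ ≤ 1 / 4 :=
    ⟨min ε 1 / 4, by positivity, by linarith [min_le_left ε 1], by linarith [min_le_right ε 1]⟩
  obtain ⟨κ, hκ⟩ : ∃ κ : ℝ, κ = ε₁ / 16 := ⟨_, rfl⟩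
  have hκ0 : 0 < κ := by rw [hκ]; positivity
  obtain ⟨n, ρ, hn, hρ, hρm, hR⟩ := riemann_lower (ε := κ) hκ0 (by linarith)
  obtain ⟨b, hb⟩ : ∃ b : ℝ, b = -Real.log (ρ n) := ⟨_, rfl⟩
  have hb0 : 0 < b := by
    have := Real.log_neg (hρ n le_rfl).1 (hρ n le_rfl).2
    linarith
  obtain ⟨C, hC⟩ : ∃ C : ℝ, C = 32 / (ε₁ * b) + 1 := ⟨_, rfl⟩
  have hC0 : 0 < C := by rw [hC]; positivity
  have hWn := LowB_fW_pos (hρ n le_rfl).1 (hρ n le_rfl).2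
  -- conditions on `y`
  have hy_ev : ∀ᶠ y : ℝ in atTop, (∀ i ∈ range n, (1 - κ) * ((fW (ρ i) - fW (ρ (i + 1))) / 2) * y ≤
      ∑ p ∈ PI3 (fW (ρ (i + 1)) * y) (fW (ρ i) * y), Real.log p) := by
    rw [Filter.eventually_all_finset]
    intro i hi
    rw [mem_range] at hi
    have h1 := hρ i hi.le
    have h2 := hρ (i + 1) hi
    have h3 := LowB_fW_pos h2.1 h2.2
    have h4 := fW_anti h1.1 (hρm i hi) h2.2
    have h5 := PI3_asymp h3.le h4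
    have h6 : (1 - κ) * ((fW (ρ i) - fW (ρ (i + 1))) / 2) < (fW (ρ i) - fW (ρ (i + 1))) / 2 := by
      nlinarith
    filter_upwards [h5.eventually (eventually_gt_nhds h6), eventually_gt_atTop (0 : ℝ)] with y hy hy0
    rw [lt_div_iff₀ hy0] at hy
    exact hy.le
  have hℓ_ev : ∀ᶠ ℓ : ℝ in atTop, (∀ i ∈ range n, (1 - κ) * ((fW (ρ i) - fW (ρ (i + 1))) / 2) *
      (ℓ / Real.log ℓ) ≤ ∑ p ∈ PI3 (fW (ρ (i + 1)) * (ℓ / Real.log ℓ))
        (fW (ρ i) * (ℓ / Real.log ℓ)), Real.log p) ∧ 1 / (2 * κ) / fW (ρ n) ≤ ℓ / Real.log ℓ ∧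
      8 ≤ ℓ ∧ 1 ≤ Real.log ℓ ∧ Real.log (8 * C / κ) / (κ / 2) ≤ Real.log ℓ ∧ (1 / ε) ^ 2 ≤ ℓ :=
    (LowB_tendsto.eventually hy_ev).and ((LowB_tendsto.eventually (eventually_ge_atTop _)).and
      ((eventually_ge_atTop _).and ((Real.tendsto_log_atTop.eventually (eventually_ge_atTop _)).and
        ((Real.tendsto_log_atTop.eventually (eventually_ge_atTop _)).and (eventually_ge_atTop _)))))
  have hlogt : Tendsto (fun H : ℕ => Real.log (H : ℝ)) atTop atTop :=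
    Real.tendsto_log_atTop.comp tendsto_natCast_atTop_atTop
  filter_upwards [hlogt.eventually hℓ_ev, eventually_ge_atTop 1] with H hH hH1
  generalize hℓdef : Real.log (H : ℝ) = ℓ at hH ⊢
  generalize hLdef : Real.log ℓ = L at hH ⊢
  generalize hydef : ℓ / L = y at hH ⊢
  obtain ⟨hpnt, hyW, hℓ8, hL1, hLC, hℓε⟩ := hH
  have hL0 : 0 < L := by linarith
  have hℓ0 : 0 < ℓ := by linarith
  have hyL : y * L = ℓ := by rw [← hydef]; field_simp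
  have hy0 : 0 < y := by rw [← hydef]; positivity
  have hyℓ : y ≤ ℓ := by nlinarith
  obtain ⟨R, hRdef⟩ : ∃ R : ℝ, R = Real.sqrt (ℓ * L) := ⟨_, rfl⟩
  have hR0 : 0 < R := by rw [hRdef]; positivity
  have hR2 : R * R = ℓ * L := by rw [hRdef]; exact Real.mul_self_sqrt (by positivity)
  obtain ⟨B, hBdef⟩ : ∃ B : ℕ, B = ⌈32 * L / (ε₁ * b)⌉₊ := ⟨_, rfl⟩
  have hB1 : 32 * L / (ε₁ * b) ≤ B := by rw [hBdef]; exact Nat.le_ceil _
  have hB0 : 0 < (B : ℝ) := lt_of_lt_of_le (by positivity) hB1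
  have hB2 : (B : ℝ) ≤ C * L := by
    have h1 : (B : ℝ) < 32 * L / (ε₁ * b) + 1 := by
      rw [hBdef]
      exact Nat.ceil_lt_add_one (by positivity)
    have h2 : C * L = 32 * L / (ε₁ * b) + L := by rw [hC]; ring
    linarith
  obtain ⟨q, hqdef⟩ : ∃ q : ℝ, q = κ * R / (B * (8 * y)) := ⟨_, rfl⟩
  have hq0 : 0 < q := by rw [hqdef]; positivity
  have hqB : q * B * (8 * y) = κ * R := by rw [hqdef]; field_simp
  -- the bound for `log q`
  have hq1 : -Real.log q ≤ (1 + κ) / 2 * L := by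
    have h1 : q⁻¹ ≤ 8 * C / κ * Real.sqrt ℓ := by
      have hs : Real.sqrt ℓ * Real.sqrt ℓ = ℓ := Real.mul_self_sqrt hℓ0.le
      have hs0 : 0 < Real.sqrt ℓ := Real.sqrt_pos.2 hℓ0
      have hsR : Real.sqrt ℓ ≤ R := by
        rw [hRdef]
        apply Real.sqrt_le_sqrt
        nlinarith
      rw [hqdef, inv_div, div_le_iff₀ (by positivity)]
      have h2 : (B : ℝ) * (8 * y) ≤ C * L * (8 * y) :=
        mul_le_mul_of_nonneg_right hB2 (by positivity)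
      have h3 : C * L * (8 * y) = 8 * C * ℓ := by rw [← hyL]; ring
      have h4 : 8 * C / κ * Real.sqrt ℓ * (κ * R) = 8 * C * (Real.sqrt ℓ * R) := by field_simp
      rw [h4]
      have h5 : ℓ ≤ Real.sqrt ℓ * R := by
        rw [← hs]
        have h6 : Real.sqrt (Real.sqrt ℓ * Real.sqrt ℓ) = Real.sqrt ℓ := by rw [hs]
        rw [h6]
        exact mul_le_mul_of_nonneg_left hsR hs0.le
      have h6 : 8 * C * ℓ ≤ 8 * C * (Real.sqrt ℓ * R) := mul_le_mul_of_nonneg_left h5 (by positivity)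
      linarith
    have h2 : Real.log q⁻¹ ≤ Real.log (8 * C / κ * Real.sqrt ℓ) :=
      Real.log_le_log (by positivity) h1
    rw [Real.log_inv, Real.log_mul (by positivity) (by positivity), Real.log_sqrt hℓ0.le,
      hLdef] at h2
    rw [div_le_iff₀ (by positivity)] at hLC
    linarith
  have hsmall : 1 / (2 * κ) ≤ fW (ρ n) * y := by
    rw [div_le_iff₀ hWn] at hyW
    linarith
  have hlog8 : Real.log (8 * y) ≤ 2 * L := by
    have h1 : 8 * y ≤ ℓ * ℓ := by nlinarith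
    have h2 := Real.log_le_log (by positivity) h1
    rw [Real.log_mul hℓ0.ne' hℓ0.ne', hLdef] at h2
    linarith
  have hlog2 : Real.log 2 ≤ 1 := by
    have := Real.log_two_lt_d9
    linarith
  have hB : ℓ + Real.log 2 ≤ B * (-Real.log (ρ n) / (2 * L)) * (ε₁ / 8 * ℓ) := by
    rw [← hb]
    have h1 : 32 * L / (ε₁ * b) * (b / (2 * L)) * (ε₁ / 8 * ℓ) = 2 * ℓ := by
      field_simp
      norm_num
    have h2 : 32 * L / (ε₁ * b) * (b / (2 * L)) * (ε₁ / 8 * ℓ) ≤ B * (b / (2 * L)) * (ε₁ / 8 * ℓ) := by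
      gcongr
    linarith
  -- the conclusion
  apply le_csInf (delta_set_nonempty H)
  rintro a ⟨c, hc, rfl⟩
  have hmain := lowerA H c hc n ρ hρ hρm κ ε₁ ℓ L y ((1 + ε₁) * Real.sqrt (2 * y) * L) q B hH1
    hℓdef.le (by linarith) hL1 hyL hκ0 hκ.le (by linarith) rfl hq0 hq1 hsmall hlog8
    (fun i hi => hpnt i (mem_range.2 hi)) hR hB
  have hcard : q * B * (IA n ρ y).card ≤ κ * R := by
    rw [← hqB]
    exact mul_le_mul_of_nonneg_left (card_IA n ρ hρ hρm y hy0) (by positivity)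
  have hsq2 : Real.sqrt 2 * Real.sqrt 2 = 2 := Real.mul_self_sqrt (by norm_num)
  have hsq2' : 0 < Real.sqrt 2 := Real.sqrt_pos.2 (by norm_num)
  have hTR : Real.sqrt (2 * y) * L = Real.sqrt 2 * R := by
    rw [hRdef, Real.sqrt_mul (by norm_num), mul_assoc]
    congr 1
    have h1 : ℓ * L = y * L ^ 2 := by rw [← hyL]; ring
    rw [h1, Real.sqrt_mul hy0.le, Real.sqrt_sq hL0.le]
  have hT : Real.pi / 2 * ((1 + ε₁) * Real.sqrt (2 * y) * L) =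
      (1 + ε₁) * (Real.pi / Real.sqrt 2) * R := by
    rw [mul_assoc (1 + ε₁), hTR]
    have h1 : Real.pi / Real.sqrt 2 = Real.pi / 2 * Real.sqrt 2 := by
      rw [div_eq_iff hsq2'.ne', mul_assoc, hsq2]
      ring
    rw [h1]
    ring
  rw [hT, ← Real.exp_add] at hmain
  rw [← hRdef]
  have hpi : 2 ≤ Real.pi / Real.sqrt 2 := by
    rw [le_div_iff₀ hsq2']
    have h1 : Real.sqrt 2 < 3 / 2 := by
      rw [Real.sqrt_lt' (by norm_num)]
      norm_num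
    have := Real.pi_gt_three
    linarith
  have hεR : 1 ≤ ε * R := by
    have h1 : 1 / ε ≤ R := by
      rw [hRdef]
      apply Real.le_sqrt_of_sq_le
      nlinarith
    rw [div_le_iff₀ hε] at h1
    linarith
  generalize Real.pi / Real.sqrt 2 = P at *
  have hfin : -((1 + ε) * P * R) + Real.log 2 ≤ -(q * B * (IA n ρ y).card) + -((1 + ε₁) * P * R) := by
    have h1 : ε₁ * P * R ≤ ε / 4 * P * R := by
      have : ε₁ ≤ ε / 4 := by linarith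
      gcongr
    have h2 : κ * R ≤ ε / 64 * R := by
      have : κ ≤ ε / 64 := by linarith
      gcongr
    have h3 : ε * 2 * R ≤ ε * P * R := by gcongr
    nlinarith
  have h1 := Real.exp_le_exp.2 hfin
  rw [Real.exp_add, Real.exp_log (by norm_num)] at h1
  linarith

end Pool.Agent.H.MP_b3c6db_nt
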